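import Pool.Agent.helper77.PV.SpecC

/-!
# Project pv, row BET: the Bott map
-/

set_option autoImplicit false

open scoped Matrix Topology
open Filter

namespace Pool.Agent.PV

open Pool.Agent.CZ

section abstract

variable {R : Type} [Ring R] {ι : Type} [Fintype ι] [DecidableEq ι]

theorem BET_ms {κ μ ν : Type} [Fintype μ] (z : R) (hz : ∀ a, z * a = a * z) (M : Matrix κ μ R)
    (N : Matrix μ ν R) : M * (z • N) = z • (M * N) := by
  ext i j
  rw [Matrix.mul_apply, Matrix.smul_apply, Matrix.mul_apply, smul_eq_mul, Finset.mul_sum]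
  refine Finset.sum_congr rfl fun k _ => ?_
  rw [Matrix.smul_apply, smul_eq_mul, ← mul_assoc, ← hz, mul_assoc]

theorem BET_sm {κ μ ν : Type} [Fintype μ] (z : R) (M : Matrix κ μ R)
    (N : Matrix μ ν R) : (z • M) * N = z • (M * N) := Matrix.smul_mul z M N

theorem BET_inv (z z' : R) (hz' : ∀ a, z' * a = a * z') (h : z * z' = 1)
    (E : Matrix ι ι R) (hE : E * E = E) :
    (z • E + (1 - E)) * (z' • E + (1 - E)) = 1 := by
  have h1 : E * (1 - E) = 0 := by rw [mul_sub, mul_one, hE, sub_self]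
  have h2 : (1 - E) * E = 0 := by rw [sub_mul, one_mul, hE, sub_self]
  have h3 : (1 - E) * (1 - E) = 1 - E := by rw [mul_sub, mul_one, h2, sub_zero]
  rw [add_mul, mul_add, mul_add, BET_ms z' hz', BET_ms z' hz', Matrix.smul_mul, Matrix.smul_mul, hE,
    h1, h2, h3, smul_smul, smul_zero, smul_zero, add_zero, zero_add]
  have h4 : z' * z = 1 := by rw [hz', h]
  rw [h4, one_smul]
  abel

theorem BET_add (z : R) (hz : ∀ a, z * a = a * z) (E F : Matrix ι ι R) (hEF : E * F = 0) :
    (z • E + (1 - E)) * (z • F + (1 - F)) = z • (E + F) + (1 - (E + F)) := by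
  have h1 : E * (1 - F) = E := by rw [mul_sub, mul_one, hEF, sub_zero]
  have h2 : (1 - E) * F = F := by rw [sub_mul, one_mul, hEF, sub_zero]
  have h3 : (1 - E) * (1 - F) = 1 - E - F := by rw [mul_sub, mul_one, h2]
  rw [add_mul, mul_add, mul_add, BET_ms z hz, BET_ms z hz, Matrix.smul_mul, Matrix.smul_mul, hEF,
    h1, h2, h3, smul_zero, smul_zero, zero_add, smul_add]
  abel

end abstract

variable {B : Type} [NormedRing B] [NormedAlgebra ℂ B]

theorem BET_zl (a : C(UnitAddCircle, B)) : zl B * a = a * zl B := by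
  ext t
  show ((fourier 1 t : ℂ) • (1 : B)) * a t = a t * ((fourier 1 t : ℂ) • (1 : B))
  rw [smul_mul_assoc, one_mul, mul_smul_comm, mul_one]

theorem BET_zi (a : C(UnitAddCircle, B)) : zi B * a = a * zi B := by
  ext t
  show ((fourier (-1) t : ℂ) • (1 : B)) * a t = a t * ((fourier (-1) t : ℂ) • (1 : B))
  rw [smul_mul_assoc, one_mul, mul_smul_comm, mul_one]

theorem BET_map {ι κ μ : Type} [Fintype κ] (x : Matrix ι κ B) (y : Matrix κ μ B) :
    (x * y).map (cl B) = x.map (cl B) * y.map (cl B) := Matrix.map_mul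

/-- the invertible matrix `z e + 1 - e` -/
noncomputable def BET_u {ι : Type} [Fintype ι] [DecidableEq ι] (e : Matrix ι ι B) (he : e * e = e) :
    (Matrix ι ι C(UnitAddCircle, B))ˣ where
  val := zl B • e.map (cl B) + (1 - e.map (cl B))
  inv := zi B • e.map (cl B) + (1 - e.map (cl B))
  val_inv := BET_inv _ _ BET_zi (zU B).val_inv _ (by rw [← BET_map, he])
  inv_val := BET_inv _ _ BET_zl (zU B).inv_val _ (by rw [← BET_map, he])

theorem BET_rel1 [CompleteSpace B] (hK1T : K1T_stmt) {ι κ : Type} [Fintype ι] [DecidableEq ι]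
    [Fintype κ] [DecidableEq κ] (e : Matrix ι ι B) (f : Matrix κ κ B) (he : e * e = e) (hf : f * f = f)
    (x : Matrix ι κ B) (y : Matrix κ ι B) (h1 : x * y = e) (h2 : y * x = f) :
    k1 (BET_u e he) = k1 (BET_u f hf) := by
  obtain ⟨X, hX⟩ : ∃ X, X = e * x * f := ⟨_, rfl⟩
  obtain ⟨Y, hY⟩ : ∃ Y, Y = f * y * e := ⟨_, rfl⟩
  have a1 : e * x = x * f := by rw [← h1, ← h2, Matrix.mul_assoc]
  have a2 : f * y = y * e := by rw [← h1, ← h2, Matrix.mul_assoc]
  have hX' : X = x * f := by rw [hX, a1, Matrix.mul_assoc, hf]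
  have hY' : Y = y * e := by rw [hY, a2, Matrix.mul_assoc, he]
  have b1 : X * Y = e := by
    rw [hX', hY', Matrix.mul_assoc, ← Matrix.mul_assoc f, a2, Matrix.mul_assoc, he,
      ← Matrix.mul_assoc, h1, he]
  have b2 : Y * X = f := by
    rw [hX', hY', Matrix.mul_assoc, ← Matrix.mul_assoc e, a1, Matrix.mul_assoc, hf,
      ← Matrix.mul_assoc, h2, hf]
  have b3 : e * X = X := by rw [hX', ← Matrix.mul_assoc, a1, Matrix.mul_assoc, hf]
  have b4 : X * f = X := by rw [hX', Matrix.mul_assoc, hf]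
  have b5 : f * Y = Y := by rw [hY', ← Matrix.mul_assoc, a2, Matrix.mul_assoc, he]
  have b6 : Y * e = Y := by rw [hY', Matrix.mul_assoc, he]
  refine hK1T.2 C(UnitAddCircle, B) ι κ (e.map (cl B)) (f.map (cl B)) (X.map (cl B)) (Y.map (cl B))
    (zl B • e.map (cl B)) (BET_u e he) (BET_u f hf) ?_ ?_ ?_ ?_ ?_ ?_ ?_ ?_ rfl ?_
  · rw [← BET_map, b1]
  · rw [← BET_map, b2]
  · rw [← BET_map, b3]
  · rw [← BET_map, b4]
  · rw [← BET_map, b5]
  · rw [← BET_map, b6]
  · rw [BET_ms _ BET_zl, ← BET_map, he]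
  · rw [BET_sm, ← BET_map, he]
  · show zl B • f.map (cl B) + (1 - f.map (cl B)) = _
    congr 1
    rw [BET_ms _ BET_zl, BET_sm, ← BET_map, ← BET_map, b6, b2]

theorem BET (hK1T : K1T_stmt) (hK1M : K1M_stmt) (hK1B : K1B_stmt) (hK1R : K1R_stmt) : BET_stmt := by
  intro B _ _ _
  have _ := hK1B
  have hker : AddSubgroup.closure (K0Rel B) ≤
      (FreeAbelianGroup.lift (fun p : IdemMat B => k1 (BET_u p.e p.idem))).ker := by
    rw [AddSubgroup.closure_le]
    rintro z (⟨p, q, ⟨x, y, h1, h2⟩, rfl⟩ | ⟨n, e, f, he, hf, hs, hef, hfe, rfl⟩)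
    · show FreeAbelianGroup.lift (fun p : IdemMat B => k1 (BET_u p.e p.idem))
        (FreeAbelianGroup.of p - FreeAbelianGroup.of q) = 0
      rw [map_sub, FreeAbelianGroup.lift_apply_of, FreeAbelianGroup.lift_apply_of, sub_eq_zero]
      exact BET_rel1 hK1T p.e q.e p.idem q.idem x y h1 h2
    · show FreeAbelianGroup.lift (fun p : IdemMat B => k1 (BET_u p.e p.idem))
        (FreeAbelianGroup.of ⟨n, e + f, hs⟩ - FreeAbelianGroup.of ⟨n, e, he⟩ -
          FreeAbelianGroup.of ⟨n, f, hf⟩) = 0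
      rw [map_sub, map_sub, FreeAbelianGroup.lift_apply_of, FreeAbelianGroup.lift_apply_of,
        FreeAbelianGroup.lift_apply_of, sub_sub, sub_eq_zero]
      have h3 : BET_u (e + f) hs = BET_u e he * BET_u f hf := by
        apply Units.ext
        have h4 := BET_add (zl B) BET_zl (e.map (cl B)) (f.map (cl B)) (by
          rw [← BET_map, hef]
          exact Matrix.map_zero _ (map_zero _))
        have h5 : (e + f).map (cl B) = e.map (cl B) + f.map (cl B) := by
          ext1 i j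
          exact map_add (cl B) _ _
        show zl B • (e + f).map (cl B) + (1 - (e + f).map (cl B)) =
          (zl B • e.map (cl B) + (1 - e.map (cl B))) * (zl B • f.map (cl B) + (1 - f.map (cl B)))
        rw [h4, h5]
      show k1 (BET_u (e + f) hs) = k1 (BET_u e he) + k1 (BET_u f hf)
      rw [h3]
      exact (hK1M _ _ _ _).1
  refine ⟨QuotientAddGroup.lift _ (FreeAbelianGroup.lift
    (fun p : IdemMat B => k1 (BET_u p.e p.idem))) hker, ?_⟩
  intro ι _ _ e he g hg
  have h1 : QuotientAddGroup.lift _ (FreeAbelianGroup.lift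
      (fun p : IdemMat B => k1 (BET_u p.e p.idem))) hker (k0 e he) =
      k1 (BET_u (e.submatrix (Fintype.equivFin ι).symm (Fintype.equivFin ι).symm) (by
        rw [Matrix.submatrix_mul_equiv, he])) := by
    show FreeAbelianGroup.lift (fun p : IdemMat B => k1 (BET_u p.e p.idem))
      (FreeAbelianGroup.of ⟨_, _, _⟩) = _
    rw [FreeAbelianGroup.lift_apply_of]
  rw [h1, ← hK1R _ ι _ (Fintype.equivFin ι) g]
  congr 1
  apply Units.ext
  show zl B • (e.submatrix (Fintype.equivFin ι).symm (Fintype.equivFin ι).symm).map (cl B) +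
    (1 - (e.submatrix (Fintype.equivFin ι).symm (Fintype.equivFin ι).symm).map (cl B)) =
    (g : Matrix ι ι C(UnitAddCircle, B)).submatrix (Fintype.equivFin ι).symm (Fintype.equivFin ι).symm
  rw [hg]
  ext1 i j
  simp only [Matrix.add_apply, Matrix.smul_apply, Matrix.map_apply, Matrix.submatrix_apply,
    Matrix.sub_apply, Matrix.one_apply, EmbeddingLike.apply_eq_iff_eq]

end Pool.Agent.PV
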