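import Pool.Agent.helper77.PV.SpecA

/-!
# Project pv, row K1R: the class in `K₁` does not depend on the names of the indices
-/

set_option autoImplicit false

open scoped Matrix Topology
open Filter

namespace Pool.Agent.PV

open Pool.Agent.CZ

theorem K1R_mul {A : Type} [Ring A] [TopologicalSpace A] (n : ℕ) (g h : (Matrix (Fin n) (Fin n) A)ˣ) :
    cls1 ⟨n, g * h⟩ = cls1 ⟨n, g⟩ + cls1 ⟨n, h⟩ := by
  have h1 : (FreeAbelianGroup.of (⟨n, g * h⟩ : InvMat A) - FreeAbelianGroup.of ⟨n, g⟩ -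
      FreeAbelianGroup.of ⟨n, h⟩) ∈ AddSubgroup.closure (K1Rel A) :=
    AddSubgroup.subset_closure (Or.inl ⟨n, g, h, rfl⟩)
  have h2 := (QuotientAddGroup.eq_zero_iff _).2 h1
  have h3 : cls1 (⟨n, g * h⟩ : InvMat A) - cls1 ⟨n, g⟩ - cls1 ⟨n, h⟩ = 0 := h2
  rw [sub_sub, sub_eq_zero] at h3
  exact h3

theorem K1R_one {A : Type} [Ring A] [TopologicalSpace A] (n : ℕ) :
    cls1 (⟨n, 1⟩ : InvMat A) = 0 := by
  have h := K1R_mul n (1 : (Matrix (Fin n) (Fin n) A)ˣ) 1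
  rw [mul_one] at h
  exact left_eq_add.1 h

theorem K1R_conj {A : Type} [Ring A] [TopologicalSpace A] (n : ℕ) (p g : (Matrix (Fin n) (Fin n) A)ˣ) :
    cls1 ⟨n, p * g * p⁻¹⟩ = cls1 ⟨n, g⟩ := by
  have h1 := K1R_mul n (p * g) p⁻¹
  have h2 := K1R_mul n p g
  have h3 := K1R_mul n p p⁻¹
  rw [mul_inv_cancel, K1R_one] at h3
  rw [h1, h2]
  have h4 : cls1 (⟨n, p⁻¹⟩ : InvMat A) = -cls1 ⟨n, p⟩ := (neg_eq_of_add_eq_zero_right h3.symm).symm
  rw [h4]
  abel

theorem K1R_perm {A : Type} [Ring A] {n : ℕ} (σ : Equiv.Perm (Fin n)) (g : (Matrix (Fin n) (Fin n) A)ˣ) :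
    ∃ p : (Matrix (Fin n) (Fin n) A)ˣ, rix σ g = p * g * p⁻¹ := by
  have h1 : ∀ M : Matrix (Fin n) (Fin n) A, ∀ τ : Equiv.Perm (Fin n),
      τ.symm.toPEquiv.toMatrix * M * τ.toPEquiv.toMatrix = M.submatrix τ.symm τ.symm := by
    intro M τ
    rw [PEquiv.toMatrix_toPEquiv_mul, PEquiv.mul_toMatrix_toPEquiv, Matrix.submatrix_submatrix]
    rfl
  have h2 : ∀ τ : Equiv.Perm (Fin n),
      (τ.symm.toPEquiv.toMatrix : Matrix (Fin n) (Fin n) A) * τ.toPEquiv.toMatrix = 1 := by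
    intro τ
    have h := h1 1 τ
    rw [mul_one] at h
    rw [h]
    exact Matrix.submatrix_one_equiv τ.symm
  refine ⟨⟨σ.symm.toPEquiv.toMatrix, σ.toPEquiv.toMatrix, h2 σ, ?_⟩, ?_⟩
  · have h := h2 σ.symm
    rw [Equiv.symm_symm] at h
    exact h
  · apply Units.ext
    show (g : Matrix (Fin n) (Fin n) A).submatrix σ.symm σ.symm = _
    rw [← h1]
    rfl

theorem K1R_two {A : Type} [Ring A] [TopologicalSpace A] {ι : Type} [Fintype ι] [DecidableEq ι]
    (g : (Matrix ι ι A)ˣ) (n m : ℕ) (h : n = m) (a : ι ≃ Fin n) (b : ι ≃ Fin m) :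
    cls1 (⟨n, rix a g⟩ : InvMat A) = cls1 ⟨m, rix b g⟩ := by
  subst h
  obtain ⟨p, hp⟩ := K1R_perm (a.symm.trans b) (rix a g)
  have h1 : rix b g = rix (a.symm.trans b) (rix a g) := by
    apply Units.ext
    show (g : Matrix ι ι A).submatrix b.symm b.symm =
      ((g : Matrix ι ι A).submatrix a.symm a.symm).submatrix (a.symm.trans b).symm (a.symm.trans b).symm
    rw [Matrix.submatrix_submatrix]
    congr 1
    · funext x
      simp
    · funext x
      simp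
  rw [h1, hp, K1R_conj]

theorem K1R : K1R_stmt := by
  intro A _ _ ι κ _ _ _ _ f g
  have h1 : rix (Fintype.equivFin κ) (rix f g) = rix (f.trans (Fintype.equivFin κ)) g := by
    apply Units.ext
    show ((g : Matrix ι ι A).submatrix f.symm f.symm).submatrix (Fintype.equivFin κ).symm
      (Fintype.equivFin κ).symm = (g : Matrix ι ι A).submatrix (f.trans (Fintype.equivFin κ)).symm
        (f.trans (Fintype.equivFin κ)).symm
    rw [Matrix.submatrix_submatrix]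
    rfl
  unfold k1
  rw [h1]
  exact K1R_two g _ _ (Fintype.card_congr f).symm _ _

end Pool.Agent.PV
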