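import Pool.Agent.helper77.PV.SpecC
import Pool.Agent.helper62.PV.K1R
import Pool.Agent.helper62.PV.BET

/-!
# Project pv, row BEN: naturality of the Bott map
-/

set_option autoImplicit false

open scoped Matrix Topology
open Filter

namespace Pool.Agent.PV

open Pool.Agent.CZ

/-- the class of an idempotent matrix with renamed indices -/
theorem BEN_k0 {A : Type} [Ring A] {ι : Type} [Fintype ι] {n : ℕ} (τ : ι ≃ Fin n) (e : Matrix ι ι A)
    (he : e * e = e) (h : e.submatrix τ.symm τ.symm * e.submatrix τ.symm τ.symm =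
      e.submatrix τ.symm τ.symm) : cls ⟨n, e.submatrix τ.symm τ.symm, h⟩ = k0 e he := by
  have h1 : (FreeAbelianGroup.of (⟨n, e.submatrix τ.symm τ.symm, h⟩ : IdemMat A) -
      FreeAbelianGroup.of ⟨Fintype.card ι,
        e.submatrix (Fintype.equivFin ι).symm (Fintype.equivFin ι).symm, by
          rw [Matrix.submatrix_mul_equiv, he]⟩) ∈ AddSubgroup.closure (K0Rel A) := by
    refine AddSubgroup.subset_closure (Or.inl ⟨_, _, ⟨e.submatrix τ.symm (Fintype.equivFin ι).symm,
      e.submatrix (Fintype.equivFin ι).symm τ.symm, ?_, ?_⟩, rfl⟩)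
    · show e.submatrix τ.symm (Fintype.equivFin ι).symm * e.submatrix (Fintype.equivFin ι).symm τ.symm =
        e.submatrix τ.symm τ.symm
      rw [Matrix.submatrix_mul_equiv, he]
    · show e.submatrix (Fintype.equivFin ι).symm τ.symm * e.submatrix τ.symm (Fintype.equivFin ι).symm =
        e.submatrix (Fintype.equivFin ι).symm (Fintype.equivFin ι).symm
      rw [Matrix.submatrix_mul_equiv, he]
  have h2 := (QuotientAddGroup.eq_zero_iff _).2 h1
  have h3 : cls (⟨n, e.submatrix τ.symm τ.symm, h⟩ : IdemMat A) - k0 e he = 0 := h2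
  exact sub_eq_zero.1 h3

theorem BEN_cls {A : Type} [Ring A] (p : IdemMat A) : cls p = k0 p.e p.idem :=
  BEN_k0 (Equiv.refl (Fin p.n)) p.e p.idem p.idem

theorem BEN_one {A : Type} [Ring A] (h : (1 : Matrix Unit Unit A) * 1 = 1) :
    k0 (1 : Matrix Unit Unit A) h = unitCls A := by
  have h1 : (1 : Matrix Unit Unit A).submatrix (Equiv.ofUnique Unit (Fin 1)).symm
      (Equiv.ofUnique Unit (Fin 1)).symm = 1 := Matrix.submatrix_one_equiv _
  have h2 : (1 : Matrix Unit Unit A).submatrix (Equiv.ofUnique Unit (Fin 1)).symm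
      (Equiv.ofUnique Unit (Fin 1)).symm *
      (1 : Matrix Unit Unit A).submatrix (Equiv.ofUnique Unit (Fin 1)).symm
      (Equiv.ofUnique Unit (Fin 1)).symm =
      (1 : Matrix Unit Unit A).submatrix (Equiv.ofUnique Unit (Fin 1)).symm
      (Equiv.ofUnique Unit (Fin 1)).symm := by
    rw [Matrix.submatrix_mul_equiv, h]
  rw [← BEN_k0 (Equiv.ofUnique Unit (Fin 1)) (1 : Matrix Unit Unit A) h h2]
  unfold unitCls
  congr 1
  simp only [h1]

/-- two homomorphisms which agree on the classes of idempotents are equal -/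
theorem BEN_ext {A G : Type} [Ring A] [AddCommGroup G] (α β : K0 A →+ G)
    (h : ∀ (n : ℕ) (e : Matrix (Fin n) (Fin n) A) (he : e * e = e), α (k0 e he) = β (k0 e he))
    (z : K0 A) : α z = β z := by
  have h1 : α = β := by
    apply QuotientAddGroup.addMonoidHom_ext
    apply FreeAbelianGroup.lift_ext
    intro p
    show α (cls p) = β (cls p)
    rw [BEN_cls]
    exact h _ _ _
  rw [h1]

theorem BEN_k1one {A : Type} [Ring A] [TopologicalSpace A] {ι : Type} [Fintype ι] [DecidableEq ι] :
    k1 (1 : (Matrix ι ι A)ˣ) = 0 := by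
  unfold k1
  have h : rix (Fintype.equivFin ι) (1 : (Matrix ι ι A)ˣ) = 1 := by
    unfold rix
    exact map_one _
  rw [h]
  exact K1R_one _

theorem BEN (hK0G : K0G_stmt) (hFUN : FUN_stmt) (hBET : BET_stmt) : BEN_stmt := by
  have _ := hK0G
  have _ := hFUN
  have _ := hBET
  refine ⟨?_, ?_⟩
  · intro B D _ _ _ _ _ _ φ hφ be be' hc hbe hbe' z
    refine BEN_ext ((k1map (cmpC UnitAddCircle φ hφ).toRingHom hc).comp be)
      (be'.comp (k0map φ.toRingHom)) (fun n e he => ?_) z
    have hm : e.map φ * e.map φ = e.map φ := by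
      have h := congrArg φ.toRingHom.mapMatrix he
      rw [map_mul] at h
      exact h
    show k1map (cmpC UnitAddCircle φ hφ).toRingHom hc (be (k0 e he)) =
      be' (k0 (e.map φ) hm)
    rw [hbe (Fin n) e he (BET_u e he) rfl, k1map_k1]
    refine (hbe' (Fin n) (e.map φ) hm _ ?_).symm
    show (zl B • e.map (cl B) + (1 - e.map (cl B))).map (cmpC UnitAddCircle φ hφ) = _
    ext i j t
    show φ ((fourier 1 t : ℂ) • (1 : B) * e i j + ((1 : Matrix (Fin n) (Fin n) C(UnitAddCircle, B)) i j t -
      e i j)) = (fourier 1 t : ℂ) • (1 : D) * φ (e i j) +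
        ((1 : Matrix (Fin n) (Fin n) C(UnitAddCircle, D)) i j t - φ (e i j))
    rw [map_add, map_mul, map_smul, map_one, map_sub]
    congr 2
    by_cases h : i = j
    · rw [h, Matrix.one_apply_eq, Matrix.one_apply_eq]
      exact map_one φ
    · rw [Matrix.one_apply_ne h, Matrix.one_apply_ne h]
      exact map_zero φ
  · intro B _ _ _ be hbe z
    refine BEN_ext ((k1map (el B).toRingHom (el_cont B)).comp be) 0 (fun n e he => ?_) z
    show k1map (el B).toRingHom (el_cont B) (be (k0 e he)) = 0
    rw [hbe (Fin n) e he (BET_u e he) rfl, k1map_k1]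
    have h1 : umap (el B).toRingHom (BET_u e he) = 1 := by
      apply Units.ext
      show (zl B • e.map (cl B) + (1 - e.map (cl B))).map (el B) = 1
      ext i j
      show (fourier 1 (0 : UnitAddCircle) : ℂ) • (1 : B) * e i j +
        ((1 : Matrix (Fin n) (Fin n) C(UnitAddCircle, B)) i j (0 : UnitAddCircle) - e i j) =
        (1 : Matrix (Fin n) (Fin n) B) i j
      rw [fourier_eval_zero, one_smul, one_mul]
      by_cases h : i = j
      · rw [h, Matrix.one_apply_eq, Matrix.one_apply_eq]
        show e j j + ((1 : B) - e j j) = 1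
        abel
      · rw [Matrix.one_apply_ne h, Matrix.one_apply_ne h]
        show e i j + ((0 : B) - e i j) = 0
        abel
    rw [h1]
    exact BEN_k1one

end Pool.Agent.PV
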