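import Pool.Agent.helper77.PV.SpecC2
import Pool.Agent.helper62.PV.BEN

/-!
# Project pv, row BT1: Bott periodicity for Banach algebras with `‖1‖ ≤ 1`
-/

set_option autoImplicit false

open scoped Matrix Topology
open Filter

namespace Pool.Agent.PV

open Pool.Agent.CZ

theorem BT1 (hBZ1 : BZ1_stmt) (hBET : BET_stmt) (hBEN : BEN_stmt) (hD1E : D1E_stmt)
    (hD1K : D1K_stmt) (hD1P : D1P_stmt) (hIN0 : IN0_stmt) (hK0G : K0G_stmt) (hFUN : FUN_stmt) :
    BT1_stmt := by
  have _ := hK0G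
  intro B _ _ _ h1
  obtain ⟨c, hc⟩ := hBZ1 B h1
  obtain ⟨be, hbe⟩ := hBET B
  obtain ⟨d, hd⟩ := hD1E B C(UnitAddCircle, B) AlgEquiv.refl (cl B) (zU B) c hc
  have hdb : ∀ z, d (be z) = z := by
    intro z
    refine BEN_ext (d.comp be) (AddMonoidHom.id _) (fun n e he => ?_) z
    show d (be (k0 e he)) = k0 e he
    rw [hbe (Fin n) e he (BET_u e he) rfl]
    have hid : e.map (AlgEquiv.refl : B ≃ₐ[ℂ] B) = e := by
      ext i j
      rfl
    refine hd (Fin n) (BET_u e he) (k0 e he) ((hIN0 B C(UnitAddCircle, B) AlgEquiv.refl (cl B)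
      (zU B) c hc (Fin n)).2.2 e e e he (BET_u e he) he ?_ he ?_ ?_)
    · rw [hid, he]
    · rw [hid, he]
    · show zl B • e.map (cl B) + (1 - e.map (cl B)) =
        e.map (cl B) * (Matrix.scalar (Fin n) (zl B)) + (1 - e.map (cl B))
      congr 1
      ext1 i j
      rw [Matrix.scalar_apply, Matrix.mul_diagonal, Matrix.smul_apply, Matrix.map_apply]
      exact BET_zl _
  have hP := hD1P B C(UnitAddCircle, B) AlgEquiv.refl (cl B) (zU B) c (cl_cont B) hc d hd
  have hel : ∀ z, k1map (el B).toRingHom (el_cont B) (be z) = 0 := hBEN.2 B be hbe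
  have hcomp : ∀ w : K1 B, k1map (el B).toRingHom (el_cont B) (k1map (cl B).toRingHom (cl_cont B) w) =
      w := by
    intro w
    have h2 := hFUN.2.2.2.2 B C(UnitAddCircle, B) B (cl B).toRingHom (el B).toRingHom (cl_cont B)
      (el_cont B) ((el_cont B).comp (cl_cont B)) w
    rw [← h2]
    exact hFUN.2.2.2.1 B w
  refine ⟨be, d, hbe, hdb, hP.1, hel, fun y => ?_⟩
  have h2 : d (y - be (d y)) = 0 := by
    rw [map_sub, hdb, sub_self]
  obtain ⟨w, hw⟩ := hD1K B C(UnitAddCircle, B) AlgEquiv.refl (cl B) (zU B) c (cl_cont B) hc d hd _ h2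
  have h3 : k1map (el B).toRingHom (el_cont B) y = w := by
    have h4 := congrArg (k1map (el B).toRingHom (el_cont B)) hw
    rw [map_sub, hel, sub_zero, hcomp] at h4
    exact h4
  rw [h3, ← hw]
  abel

end Pool.Agent.PV
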