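import Pool.Agent.helper77.PV.SpecA
import Pool.Agent.helper89.CZ.NEU

/-!
# Project pv, row CS1: continuity of `K₁`, surjectivity
-/

set_option autoImplicit false

open scoped Matrix Topology
open Filter

namespace Pool.Agent.PV

open Pool.Agent.CZ

/-- approximation of a matrix by matrices over the subalgebras -/
theorem CS1_seq {A I : Type} [NormedRing A] [NormedAlgebra ℂ A] (S : Finset I → Subalgebra ℂ A)
    (hD : Dense {a : A | ∃ F, a ∈ S F}) {n : ℕ} (g : Matrix (Fin n) (Fin n) A) :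
    ∃ x : ℕ → Matrix (Fin n) (Fin n) A, Tendsto x atTop (𝓝 g) ∧
      ∀ m i j, ∃ F, x m i j ∈ S F := by
  have h1 : ∀ (m : ℕ) (i j : Fin n), ∃ a : A, (∃ F, a ∈ S F) ∧ dist (g i j) a < 1 / ((m : ℝ) + 1) := by
    intro m i j
    obtain ⟨a, ha, hb⟩ := hD.exists_dist_lt (g i j) (show (0 : ℝ) < 1 / ((m : ℝ) + 1) by positivity)
    exact ⟨a, ha, hb⟩
  choose x hx1 hx2 using h1
  refine ⟨fun m => Matrix.of (x m), ?_, fun m i j => hx1 m i j⟩
  refine tendsto_pi_nhds.2 fun i => tendsto_pi_nhds.2 fun j => ?_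
  show Tendsto (fun m => x m i j) atTop (𝓝 (g i j))
  rw [tendsto_iff_dist_tendsto_zero]
  refine squeeze_zero (fun m => dist_nonneg) (fun m => ?_) tendsto_one_div_add_atTop_nhds_zero_nat
  rw [dist_comm]
  exact (hx2 m i j).le

theorem CS1 (hK1G : K1G_stmt) (hK1M : K1M_stmt) (hK1C : K1C_stmt) : CS1_stmt := by
  classical
  intro A I _ _ _ S hS hcl hD z
  obtain ⟨n, g, rfl⟩ := hK1G A z
  obtain ⟨ε, hε, hC⟩ := hK1C A (Fin n) g
  obtain ⟨x, hx, hxS⟩ := CS1_seq S hD (g : Matrix (Fin n) (Fin n) A)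
  obtain ⟨y, hy, hyS⟩ := CS1_seq S hD ((g⁻¹ : (Matrix (Fin n) (Fin n) A)ˣ) : Matrix (Fin n) (Fin n) A)
  -- a good index
  have hxy : Tendsto (fun m => 1 - x m * y m) atTop (𝓝 0) := by
    have h := (tendsto_const_nhds (x := (1 : Matrix (Fin n) (Fin n) A))).sub (hx.mul hy)
    rwa [Units.mul_inv, sub_self] at h
  have hyx : Tendsto (fun m => 1 - y m * x m) atTop (𝓝 0) := by
    have h := (tendsto_const_nhds (x := (1 : Matrix (Fin n) (Fin n) A))).sub (hy.mul hx)
    rwa [Units.inv_mul, sub_self] at h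
  have hent : ∀ u : ℕ → Matrix (Fin n) (Fin n) A, Tendsto u atTop (𝓝 0) →
      ∀ᶠ m in atTop, ∀ i j, (n : ℝ) * ‖u m i j‖ ≤ 3 / 4 := by
    intro u hu
    refine eventually_all.2 fun i => eventually_all.2 fun j => ?_
    have h1 : Tendsto (fun m => u m i j) atTop (𝓝 0) :=
      tendsto_pi_nhds.1 (tendsto_pi_nhds.1 hu i) j
    have h2 : Tendsto (fun m => (n : ℝ) * ‖u m i j‖) atTop (𝓝 0) := by
      have h3 := (tendsto_norm_zero.comp h1).const_mul (n : ℝ)
      rw [mul_zero] at h3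
      exact h3
    exact (h2.eventually_lt_const (show (0 : ℝ) < 3 / 4 by norm_num)).mono fun m hm => hm.le
  have hgx : ∀ᶠ m in atTop, ∀ i j, ‖(g : Matrix (Fin n) (Fin n) A) i j - x m i j‖ < ε := by
    refine eventually_all.2 fun i => eventually_all.2 fun j => ?_
    have h1 : Tendsto (fun m => x m i j) atTop (𝓝 ((g : Matrix (Fin n) (Fin n) A) i j)) :=
      tendsto_pi_nhds.1 (tendsto_pi_nhds.1 hx i) j
    have h2 := (tendsto_const_nhds (x := (g : Matrix (Fin n) (Fin n) A) i j)).sub h1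
    rw [sub_self] at h2
    exact (tendsto_norm_zero.comp h2).eventually_lt_const hε
  obtain ⟨m, h1, h2, h3⟩ := ((hent _ hxy).and ((hent _ hyx).and hgx)).exists
  -- one subalgebra
  choose Fx hFx using fun i j => hxS m i j
  choose Fy hFy using fun i j => hyS m i j
  obtain ⟨F, hF⟩ : ∃ F : Finset I, F = (Finset.univ.biUnion fun i => Finset.univ.biUnion fun j => Fx i j) ∪
      (Finset.univ.biUnion fun i => Finset.univ.biUnion fun j => Fy i j) := ⟨_, rfl⟩
  have hX : ∀ i j, x m i j ∈ S F := by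
    intro i j
    refine hS ?_ (hFx i j)
    rw [hF]
    intro t ht
    exact Finset.mem_union_left _ (Finset.mem_biUnion.2 ⟨i, Finset.mem_univ _,
      Finset.mem_biUnion.2 ⟨j, Finset.mem_univ _, ht⟩⟩)
  have hY : ∀ i j, y m i j ∈ S F := by
    intro i j
    refine hS ?_ (hFy i j)
    rw [hF]
    intro t ht
    exact Finset.mem_union_right _ (Finset.mem_biUnion.2 ⟨i, Finset.mem_univ _,
      Finset.mem_biUnion.2 ⟨j, Finset.mem_univ _, ht⟩⟩)
  obtain ⟨X, hXd⟩ : ∃ X : Matrix (Fin n) (Fin n) A, X = x m := ⟨_, rfl⟩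
  obtain ⟨Y, hYd⟩ : ∃ Y : Matrix (Fin n) (Fin n) A, Y = y m := ⟨_, rfl⟩
  rw [← hXd] at hX h1 h2 h3
  rw [← hYd] at hY h1 h2
  have hmul : ∀ U V : Matrix (Fin n) (Fin n) A, (∀ i j, U i j ∈ S F) → (∀ i j, V i j ∈ S F) →
      ∀ i j, (U * V) i j ∈ S F := by
    intro U V hU hV i j
    rw [Matrix.mul_apply]
    exact Subalgebra.sum_mem _ fun k _ => Subalgebra.mul_mem _ (hU i k) (hV k j)
  have hone : ∀ i j, (1 : Matrix (Fin n) (Fin n) A) i j ∈ S F := by
    intro i j
    by_cases h : i = j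
    · rw [h, Matrix.one_apply_eq]
      exact Subalgebra.one_mem _
    · rw [Matrix.one_apply_ne h]
      exact Subalgebra.zero_mem _
  have hsub : ∀ U : Matrix (Fin n) (Fin n) A, (∀ i j, U i j ∈ S F) → ∀ i j, (1 - U) i j ∈ S F :=
    fun U hU i j => Subalgebra.sub_mem _ (hone i j) (hU i j)
  obtain ⟨W, hW, hW1, hW2⟩ := NEU_geom (S F).toSubring (hcl F) (1 - X * Y)
    (fun i j => hsub _ (hmul X Y hX hY) i j) h1
  obtain ⟨W', hW', hW1', hW2'⟩ := NEU_geom (S F).toSubring (hcl F) (1 - Y * X)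
    (fun i j => hsub _ (hmul Y X hY hX) i j) h2
  rw [sub_sub_cancel] at hW1 hW2 hW1' hW2'
  have e1 : X * (Y * W) = 1 := by rw [← mul_assoc, hW2]
  have e2 : (W' * Y) * X = 1 := by rw [mul_assoc, hW1']
  have e3 : Y * W = W' * Y := by
    calc Y * W = (W' * Y * X) * (Y * W) := by rw [e2, one_mul]
      _ = W' * Y * (X * (Y * W)) := by rw [mul_assoc (W' * Y)]
      _ = W' * Y := by rw [e1, mul_one]
  have e4 : (Y * W) * X = 1 := by rw [e3, e2]
  -- matrices over the subalgebra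
  have hval : ∀ U V : Matrix (Fin n) (Fin n) (S F),
      U.map (S F).val = V.map (S F).val → U = V := by
    intro U V h
    ext i j
    exact congrFun (congrFun h i) j
  let X' : Matrix (Fin n) (Fin n) (S F) := fun i j => ⟨X i j, hX i j⟩
  let Y' : Matrix (Fin n) (Fin n) (S F) := fun i j => ⟨(Y * W) i j, hmul Y W hY hW i j⟩
  have hmm : ∀ U V : Matrix (Fin n) (Fin n) (S F),
      (U * V).map (S F).val = U.map (S F).val * V.map (S F).val := fun U V => Matrix.map_mul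
  have hm1 : (1 : Matrix (Fin n) (Fin n) (S F)).map (S F).val = 1 :=
    Matrix.map_one _ (map_zero _) (map_one _)
  let u : (Matrix (Fin n) (Fin n) (S F))ˣ := ⟨X', Y', by
    apply hval
    rw [hmm, hm1]
    exact e1, by
    apply hval
    rw [hmm, hm1]
    exact e4⟩
  obtain ⟨h', hh', hH⟩ := hC X h3
  have hu : umap (S F).val.toRingHom u = h' := by
    apply Units.ext
    rw [hh']
    rfl
  refine ⟨F, k1 u, ?_⟩
  rw [k1map_k1, hu]
  exact ((hK1M A (Fin n) g h').2.2.2 hH)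

end Pool.Agent.PV
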