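import Pool.Agent.helper77.PV.SpecK3

/-!
# Project pv, row pvk:DXC: existence of the extension, with the small boundary property
-/

set_option autoImplicit false

open scoped Matrix Topology
open Filter MeasureTheory

namespace Pool.Agent.PV

open Pool.Agent.CZ Pool.Agent.PVH

theorem DXC (hFMZ : FMZ_stmt) (hFMI : FMI_stmt) (hFEA : FEA_stmt) (hDXD : DXD_stmt)
    (hFSG : FSG_stmt) : DXC_stmt := by
  intro X₀ Y _ _ _ _ _ _ _ _ α₀ hmin
  obtain ⟨x₀⟩ : Nonempty X₀ := inferInstance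
  obtain ⟨f, hf⟩ := hFEA X₀ Y α₀ hmin x₀
  obtain ⟨hc, hm, hi⟩ := hFMZ X₀ Y α₀ x₀ f hf.cont
  haveI := hc
  exact ⟨ESp α₀ x₀ f, inferInstance, hc, hm, hi inferInstance, eHom α₀ x₀ f, ePr α₀ x₀ f, _, _,
    hFMI X₀ Y α₀ x₀ f hf hmin, hDXD X₀ Y α₀ x₀ f hf.cont hmin,
    fun hs => hFSG X₀ Y α₀ x₀ f hf.cont hmin hs⟩

end Pool.Agent.PV
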