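import Pool.Agent.helper77.PV.SpecK3

/-!
# Project pv, row pvk:FSG: the small boundary property of the extension
-/

set_option autoImplicit false

open scoped Matrix Topology
open Filter MeasureTheory

namespace Pool.Agent.PV

open Pool.Agent.CZ Pool.Agent.PVH

theorem FSG (hFSV : FSV_stmt) (hFNM : FNM_stmt) (hFAP : FAP_stmt) (hFID : FID_stmt) : FSG_stmt := by
  intro X₀ Y _ _ _ _ _ _ _ α₀ x₀ f hf hmin hsb p W hW
  have hidm : ∀ q, ePr α₀ x₀ f (eHom α₀ x₀ f q) = α₀ (ePr α₀ x₀ f q) := (hFID X₀ Y α₀ x₀ f).2.1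
  have hπc : Continuous (ePr α₀ x₀ f) := (ePr α₀ x₀ f).continuous
  -- pull back of null sets
  have hpull : ∀ (E : Set X₀), (∀ [MeasurableSpace X₀] [BorelSpace X₀] (ν : Measure X₀),
      IsProbabilityMeasure ν → ν.map α₀ = ν → ν E = 0) → ∀ (k : ℤ)
      [MeasurableSpace (ESp α₀ x₀ f)] [BorelSpace (ESp α₀ x₀ f)] (μ : Measure (ESp α₀ x₀ f)),
      IsProbabilityMeasure μ → μ.map (eHom α₀ x₀ f) = μ →
      μ {q | (α₀ ^ k) (ePr α₀ x₀ f q) ∈ E} = 0 := by
    intro E hE k _ _ μ hp hi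
    letI : MeasurableSpace X₀ := borel X₀
    haveI : BorelSpace X₀ := ⟨rfl⟩
    have hgc : Continuous fun q : ESp α₀ x₀ f => (α₀ ^ k) (ePr α₀ x₀ f q) :=
      (α₀ ^ k).continuous.comp hπc
    have hgm : Measurable fun q : ESp α₀ x₀ f => (α₀ ^ k) (ePr α₀ x₀ f q) := hgc.measurable
    have hinv : (μ.map fun q : ESp α₀ x₀ f => (α₀ ^ k) (ePr α₀ x₀ f q)).map α₀ =
        μ.map fun q : ESp α₀ x₀ f => (α₀ ^ k) (ePr α₀ x₀ f q) := by
      have h1 : (α₀ : X₀ → X₀) ∘ (fun q : ESp α₀ x₀ f => (α₀ ^ k) (ePr α₀ x₀ f q)) =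
          (fun q : ESp α₀ x₀ f => (α₀ ^ k) (ePr α₀ x₀ f q)) ∘ (eHom α₀ x₀ f) := by
        funext q
        show α₀ ((α₀ ^ k) (ePr α₀ x₀ f q)) = (α₀ ^ k) (ePr α₀ x₀ f (eHom α₀ x₀ f q))
        rw [hidm, zpow_succ_apply, add_comm, zpow_add, zpow_one]
        rfl
      rw [Measure.map_map α₀.continuous.measurable hgm, h1,
        ← Measure.map_map hgm (eHom α₀ x₀ f).continuous.measurable, hi]
    have hpr : IsProbabilityMeasure (μ.map fun q : ESp α₀ x₀ f => (α₀ ^ k) (ePr α₀ x₀ f q)) :=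
      Measure.isProbabilityMeasure_map hgm.aemeasurable
    have h0 := hE _ hpr hinv
    exact le_antisymm ((Measure.le_map_apply hgm.aemeasurable E).trans h0.le) bot_le
  -- the filter of the neighbourhoods which contain small ones
  let F : Filter (ESp α₀ x₀ f) :=
    { sets := {W | ∃ V : Set (ESp α₀ x₀ f), IsOpen V ∧ p ∈ V ∧ V ⊆ W ∧
        ∀ [MeasurableSpace (ESp α₀ x₀ f)] [BorelSpace (ESp α₀ x₀ f)] (μ : Measure (ESp α₀ x₀ f)),
          IsProbabilityMeasure μ → μ.map (eHom α₀ x₀ f) = μ → μ (frontier V) = 0}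
      univ_sets := by
        refine ⟨Set.univ, isOpen_univ, Set.mem_univ _, Set.Subset.rfl, ?_⟩
        intro _ _ μ _ _
        rw [frontier_univ, measure_empty]
      sets_of_superset := by
        rintro s t ⟨V, h1, h2, h3, h4⟩ hst
        exact ⟨V, h1, h2, h3.trans hst, h4⟩
      inter_sets := by
        rintro s t ⟨V, h1, h2, h3, h4⟩ ⟨V', k1, k2, k3, k4⟩
        refine ⟨V ∩ V', h1.inter k1, ⟨h2, k2⟩, Set.inter_subset_inter h3 k3, ?_⟩
        intro _ _ μ hp hi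
        refine measure_mono_null ((frontier_inter_subset V V').trans (Set.union_subset_union
          Set.inter_subset_left Set.inter_subset_right)) ?_
        exact measure_union_null (h4 μ hp hi) (k4 μ hp hi) }
  have hF : ∀ {s : Set (ESp α₀ x₀ f)}, (∃ V : Set (ESp α₀ x₀ f), IsOpen V ∧ p ∈ V ∧ V ⊆ s ∧
        ∀ [MeasurableSpace (ESp α₀ x₀ f)] [BorelSpace (ESp α₀ x₀ f)] (μ : Measure (ESp α₀ x₀ f)),
          IsProbabilityMeasure μ → μ.map (eHom α₀ x₀ f) = μ → μ (frontier V) = 0) → s ∈ F :=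
    fun h => h
  -- the base coordinate
  have hbase : Tendsto (fun q : ESp α₀ x₀ f => ePr α₀ x₀ f q) F (𝓝 (ePr α₀ x₀ f p)) := by
    intro U hU
    obtain ⟨V₀, h1, h2, h3, h4⟩ := hsb _ U hU
    refine hF ⟨ePr α₀ x₀ f ⁻¹' V₀, h1.preimage hπc, h2, Set.preimage_mono h3, ?_⟩
    intro _ _ μ hp hi
    refine measure_mono_null (hπc.frontier_preimage_subset V₀) ?_
    exact hpull (frontier V₀) h4 0 μ hp hi
  have hopen : IsOpen ({x₀}ᶜ : Set X₀) := isOpen_compl_singleton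
  -- the other coordinates
  have hcoord : ∀ k : ℤ, Tendsto (fun q : ESp α₀ x₀ f => q.1.2 k) F (𝓝 (p.1.2 k)) := by
    intro k Wk hWk
    by_cases hk : (α₀ ^ k) (ePr α₀ x₀ f p) = x₀
    · obtain ⟨t, htn, htc, hts⟩ := exists_mem_nhds_isClosed_subset (interior_mem_nhds.2 hWk)
      have hGo : IsOpen ({x₀}ᶜ ∩ f ⁻¹' (interior Wk)) :=
        hf.isOpen_inter_preimage hopen isOpen_interior
      have hTo : IsOpen ({x₀}ᶜ ∩ f ⁻¹' tᶜ) := hf.isOpen_inter_preimage hopen htc.isOpen_compl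
      have hCG : {x₀}ᶜ ∩ f ⁻¹' t ⊆ {x₀}ᶜ ∩ f ⁻¹' (interior Wk) :=
        Set.inter_subset_inter_right _ (Set.preimage_mono hts)
      obtain ⟨V, hVo, hCV, hVG, hVn⟩ := hFSV X₀ α₀ hsb x₀ _ _ hCG hGo (fun h => h.1 rfl) (by
        intro x hx
        by_cases hxx : x = x₀
        · exact Or.inr hxx
        · left
          refine ⟨hxx, ?_⟩
          by_contra hxt
          obtain ⟨y, hy1, hy2⟩ := mem_closure_iff_nhds.1 hx _ (hTo.mem_nhds ⟨hxx, hxt⟩)
          exact hy1.2 hy2.2)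
      have hgc : Continuous fun q : ESp α₀ x₀ f => (α₀ ^ k) (ePr α₀ x₀ f q) :=
        (α₀ ^ k).continuous.comp hπc
      have hkc : Continuous fun q : ESp α₀ x₀ f => q.1.2 k := (eEv α₀ x₀ f k).continuous
      have hWo : IsOpen {q : ESp α₀ x₀ f | q.1.2 k ∈ interior t} := isOpen_interior.preimage hkc
      have hOo : IsOpen ({q : ESp α₀ x₀ f | (α₀ ^ k) (ePr α₀ x₀ f q) ∈ V} ∪
          {q : ESp α₀ x₀ f | q.1.2 k ∈ interior t}) := (hVo.preimage hgc).union hWo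
      have hOV : ∀ q : ESp α₀ x₀ f, (α₀ ^ k) (ePr α₀ x₀ f q) ≠ x₀ →
          q ∈ ({q : ESp α₀ x₀ f | (α₀ ^ k) (ePr α₀ x₀ f q) ∈ V} ∪
          {q : ESp α₀ x₀ f | q.1.2 k ∈ interior t}) → (α₀ ^ k) (ePr α₀ x₀ f q) ∈ V := by
        intro q hq hqO
        rcases hqO with h | h
        · exact h
        · refine hCV ⟨hq, ?_⟩
          show f ((α₀ ^ k) (ePr α₀ x₀ f q)) ∈ t
          have h2 : q.1.2 k = f ((α₀ ^ k) (ePr α₀ x₀ f q)) := (q.2 k).resolve_left hq
          rw [← h2]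
          exact interior_subset h
      refine hF ⟨_, hOo, Or.inr (mem_interior_iff_mem_nhds.2 htn), ?_, ?_⟩
      · intro q hq
        show q.1.2 k ∈ Wk
        rcases hq with h | h
        · have h1 := hVG h
          have h2 : q.1.2 k = f ((α₀ ^ k) (ePr α₀ x₀ f q)) := (q.2 k).resolve_left h1.1
          rw [h2]
          exact interior_subset h1.2
        · exact interior_subset (hts (interior_subset h))
      · intro _ _ μ hp hi
        have hn1 : μ (ePr α₀ x₀ f ⁻¹' {(α₀ ^ (-k)) x₀}) = 0 :=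
          hFNM X₀ Y α₀ x₀ f (fun n hn => hFAP X₀ α₀ hmin x₀ n hn) μ hp hi k
        have hn2 : μ {q | (α₀ ^ k) (ePr α₀ x₀ f q) ∈ frontier V \ {x₀}} = 0 :=
          hpull _ hVn k μ hp hi
        refine measure_mono_null ?_ (measure_union_null hn1 hn2)
        intro q hq
        by_cases hqk : (α₀ ^ k) (ePr α₀ x₀ f q) = x₀
        · left
          have h5 : (α₀ ^ (-k)) ((α₀ ^ k) (ePr α₀ x₀ f q)) = (α₀ ^ (-k)) x₀ := congrArg _ hqk
          rw [zpow_zpow_apply, neg_add_cancel, zpow_zero] at h5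
          exact h5
        · right
          rw [hOo.frontier_eq] at hq
          refine ⟨?_, hqk⟩
          rw [hVo.frontier_eq]
          refine ⟨?_, fun h => hq.2 (Or.inl h)⟩
          rw [mem_closure_iff_nhds]
          intro N hN
          obtain ⟨q', hq'1, hq'2⟩ := mem_closure_iff_nhds.1 hq.1 _
            (hgc.continuousAt (inter_mem hN (hopen.mem_nhds hqk)))
          exact ⟨_, hq'1.1, hOV q' hq'1.2 hq'2⟩
    · have hval : p.1.2 k = f ((α₀ ^ k) (ePr α₀ x₀ f p)) := (p.2 k).resolve_left hk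
      have hcont : ContinuousAt (fun x => f ((α₀ ^ k) x)) (ePr α₀ x₀ f p) :=
        ContinuousAt.comp (f := fun x => (α₀ ^ k) x) (hf.continuousAt (hopen.mem_nhds hk))
          (α₀ ^ k).continuous.continuousAt
      have hU1 : {x | f ((α₀ ^ k) x) ∈ Wk} ∈ 𝓝 (ePr α₀ x₀ f p) := 
        hcont (by
          show Wk ∈ 𝓝 (f ((α₀ ^ k) (ePr α₀ x₀ f p)))
          rw [← hval]
          exact hWk)
      have hU2 : {x | (α₀ ^ k) x ∈ ({x₀}ᶜ : Set X₀)} ∈ 𝓝 (ePr α₀ x₀ f p) :=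
        (α₀ ^ k).continuous.continuousAt (hopen.mem_nhds hk)
      have hU3 : {q : ESp α₀ x₀ f | ePr α₀ x₀ f q ∈ {x | f ((α₀ ^ k) x) ∈ Wk} ∩
          {x | (α₀ ^ k) x ∈ ({x₀}ᶜ : Set X₀)}} ∈ F := hbase (inter_mem hU1 hU2)
      refine F.sets_of_superset hU3 ?_
      intro q hq
      have h2 : (α₀ ^ k) (ePr α₀ x₀ f q) ≠ x₀ := hq.2
      show q.1.2 k ∈ Wk
      rw [(q.2 k).resolve_left h2]
      exact hq.1
  have hle : F ≤ 𝓝 p := by
    rw [nhds_subtype_eq_comap, ← tendsto_iff_comap]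
    exact hbase.prodMk_nhds (tendsto_pi_nhds.2 hcoord)
  exact hle hW

end Pool.Agent.PV
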