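import Pool.Agent.helper77.PV.SpecK3

/-!
# Project pv, row pvk:FSV: open sets with null boundary off one point
-/

set_option autoImplicit false

open scoped Matrix Topology
open Filter MeasureTheory

namespace Pool.Agent.PV

open Pool.Agent.CZ Pool.Agent.PVH

theorem FSV : FSV_stmt := by
  intro X _ _ _ α hsb x₀ C G hCG hG hx₀ hcl
  letI := TopologicalSpace.metrizableSpaceMetric X
  have hdc : Continuous fun x : X => dist x x₀ := continuous_id.dist continuous_const
  -- the shells
  have hK : ∀ n : ℕ, ∃ V : Set X, IsOpen V ∧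
      {x | x ∈ closure C ∧ 1 ≤ ((n : ℝ) + 1) * dist x x₀ ∧ (n : ℝ) * dist x x₀ ≤ 1} ⊆ V ∧
      V ⊆ G ∩ {x | (n : ℝ) * dist x x₀ < 2} ∧
      ∀ [MeasurableSpace X] [BorelSpace X] (μ : Measure X), IsProbabilityMeasure μ →
        μ.map α = μ → μ (frontier V) = 0 := by
    intro n
    have hO : IsOpen (G ∩ {x | (n : ℝ) * dist x x₀ < 2}) :=
      hG.inter (isOpen_lt (continuous_const.mul hdc) continuous_const)
    have hKc : IsCompact
        {x | x ∈ closure C ∧ 1 ≤ ((n : ℝ) + 1) * dist x x₀ ∧ (n : ℝ) * dist x x₀ ≤ 1} := by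
      refine IsClosed.isCompact ?_
      exact isClosed_closure.inter ((isClosed_le continuous_const (continuous_const.mul hdc)).inter
        (isClosed_le (continuous_const.mul hdc) continuous_const))
    refine hKc.induction_on (p := fun s => ∃ V : Set X, IsOpen V ∧ s ⊆ V ∧
      V ⊆ G ∩ {x | (n : ℝ) * dist x x₀ < 2} ∧
      ∀ [MeasurableSpace X] [BorelSpace X] (μ : Measure X), IsProbabilityMeasure μ →
        μ.map α = μ → μ (frontier V) = 0) ?_ ?_ ?_ ?_
    · refine ⟨∅, isOpen_empty, Set.Subset.rfl, Set.empty_subset _, ?_⟩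
      intro _ _ μ _ _
      rw [frontier_empty, measure_empty]
    · rintro s t hst ⟨V, h1, h2, h3, h4⟩
      exact ⟨V, h1, hst.trans h2, h3, h4⟩
    · rintro s t ⟨V, h1, h2, h3, h4⟩ ⟨W, k1, k2, k3, k4⟩
      refine ⟨V ∪ W, h1.union k1, Set.union_subset_union h2 k2, Set.union_subset h3 k3, ?_⟩
      intro _ _ μ hp hi
      refine measure_mono_null ((frontier_union_subset V W).trans (Set.union_subset_union
        Set.inter_subset_left Set.inter_subset_right)) ?_
      exact measure_union_null (h4 μ hp hi) (k4 μ hp hi)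
    · intro x hx
      have hxO : x ∈ G ∩ {x | (n : ℝ) * dist x x₀ < 2} := by
        obtain ⟨hx1, hx2, hx3⟩ := hx
        refine ⟨?_, ?_⟩
        · rcases hcl hx1 with h | h
          · exact hCG h
          · exfalso
            rw [Set.mem_singleton_iff.1 h, dist_self, mul_zero] at hx2
            linarith
        · show (n : ℝ) * dist x x₀ < 2
          linarith
      obtain ⟨V, h1, h2, h3, h4⟩ := hsb x _ (hO.mem_nhds hxO)
      exact ⟨V, mem_nhdsWithin_of_mem_nhds (h1.mem_nhds h2), V, h1, Set.Subset.rfl, h3, h4⟩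
  choose V hVo hVK hVG hVn using hK
  refine ⟨⋃ n, V n, isOpen_iUnion hVo, ?_, ?_, ?_⟩
  · intro x hx
    have hne : x ≠ x₀ := fun h => hx₀ (h ▸ hCG hx)
    have hpos : 0 < dist x x₀ := dist_pos.2 hne
    refine Set.mem_iUnion.2 ⟨⌊1 / dist x x₀⌋₊, hVK _ ⟨subset_closure hx, ?_, ?_⟩⟩
    · have h := (Nat.lt_floor_add_one (1 / dist x x₀)).le
      rwa [div_le_iff₀ hpos] at h
    · have h := Nat.floor_le (div_nonneg zero_le_one hpos.le : 0 ≤ 1 / dist x x₀)
      rwa [le_div_iff₀ hpos] at h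
  · intro x hx
    obtain ⟨n, hn⟩ := Set.mem_iUnion.1 hx
    exact (hVG n hn).1
  · intro _ _ μ hp hi
    refine measure_mono_null (t := ⋃ n, frontier (V n)) ?_
      (measure_iUnion_null fun n => hVn n μ hp hi)
    rintro x ⟨hx1, hx2⟩
    have hne : x ≠ x₀ := fun h => hx2 h
    have hpos : 0 < dist x x₀ := dist_pos.2 hne
    by_contra hcon
    rw [Set.mem_iUnion, not_exists] at hcon
    have hxV : x ∉ ⋃ n, V n := by
      rw [(isOpen_iUnion hVo).frontier_eq] at hx1
      exact hx1.2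
    have hncl : ∀ n, x ∉ closure (V n) := by
      intro n hn
      apply hcon n
      rw [(hVo n).frontier_eq]
      exact ⟨hn, fun h => hxV (Set.mem_iUnion.2 ⟨n, h⟩)⟩
    obtain ⟨M, hM⟩ := exists_nat_gt (4 / dist x x₀)
    have hF : IsClosed (⋃ n ∈ Finset.range M, closure (V n)) :=
      isClosed_biUnion_finset fun n _ => isClosed_closure
    have hN : {y : X | dist x x₀ / 2 < dist y x₀} ∩ (⋃ n ∈ Finset.range M, closure (V n))ᶜ ∈ 𝓝 x := by
      refine ((isOpen_lt continuous_const hdc).inter hF.isOpen_compl).mem_nhds ⟨?_, ?_⟩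
      · show dist x x₀ / 2 < dist x x₀
        linarith
      · intro h
        simp only [Set.mem_iUnion] at h
        obtain ⟨n, -, hn⟩ := h
        exact hncl n hn
    obtain ⟨y, ⟨hy1, hy2⟩, hy3⟩ := mem_closure_iff_nhds.1 (frontier_subset_closure hx1) _ hN
    obtain ⟨n, hn⟩ := Set.mem_iUnion.1 hy3
    apply hy2
    simp only [Set.mem_iUnion]
    refine ⟨n, ?_, subset_closure hn⟩
    rw [Finset.mem_range]
    have h1 : (n : ℝ) * dist y x₀ < 2 := (hVG n hn).2
    have h2 : dist x x₀ / 2 < dist y x₀ := hy1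
    have h3 : (n : ℝ) * (dist x x₀ / 2) ≤ (n : ℝ) * dist y x₀ :=
      mul_le_mul_of_nonneg_left h2.le (Nat.cast_nonneg n)
    have h4 : (n : ℝ) * dist x x₀ < 4 := by linarith
    have h5 : (n : ℝ) < 4 / dist x x₀ := by rwa [lt_div_iff₀ hpos]
    exact_mod_cast h5.trans hM

end Pool.Agent.PV
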