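import Pool.Agent.helper77.PV.SpecC
import Pool.Agent.helper62.PV.BEN

/-!
# Project pv, row KS: K-theory of the circle
-/

set_option autoImplicit false

open scoped Matrix Topology
open Filter

namespace Pool.Agent.PV

open Pool.Agent.CZ

theorem KS (hBOT : BOT_stmt) (hHOL : HOL_stmt) (hKC : KC_stmt) (hBEN : BEN_stmt) (hK0G : K0G_stmt)
    (hFUN : FUN_stmt) : KS_stmt := by
  have _ := hBEN
  have _ := hK0G
  have _ := hFUN
  obtain ⟨hK1, hK2, hK3⟩ := hKC
  obtain ⟨be, d, hbe, hdb, -, -, hy⟩ := hBOT ℂ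
  obtain ⟨de, -, -, hde, -⟩ := hHOL ℂ
  have hone : (1 : Matrix Unit Unit ℂ) * 1 = 1 := one_mul 1
  have hg : ∀ g : (Matrix Unit Unit C(UnitAddCircle, ℂ))ˣ,
      (g : Matrix Unit Unit C(UnitAddCircle, ℂ)) = Matrix.of (fun _ _ => zl ℂ) →
      be (unitCls ℂ) = k1 g := by
    intro g hg
    rw [← BEN_one hone]
    refine hbe Unit 1 hone g ?_
    rw [hg]
    have h1 : (1 : Matrix Unit Unit ℂ).map (cl ℂ) = 1 := Matrix.map_one _ (map_zero _) (map_one _)
    rw [h1, sub_self, add_zero]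
    ext i j t
    show zl ℂ t = (zl ℂ t) * ((1 : Matrix Unit Unit C(UnitAddCircle, ℂ)) i j t)
    rw [Subsingleton.elim i j, Matrix.one_apply_eq]
    exact (mul_one _).symm
  refine ⟨fun z hz => hde z hz (hK3 _), fun y => ?_, fun n g hgz hn => ?_⟩
  · obtain ⟨n, hn⟩ := hK1 (d y)
    refine ⟨n, fun g hgz => ?_⟩
    rw [hy y, hK3 (k1map (el ℂ).toRingHom (el_cont ℂ) y), map_zero, zero_add, hn, map_zsmul,
      hg g hgz]
  · rw [← hg g hgz] at hn
    have h1 := congrArg d hn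
    rw [map_zsmul, hdb, map_zero] at h1
    exact hK2 n h1

end Pool.Agent.PV
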