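import Pool.Agent.helper72.PV.SpecH

/-!
# Project pv, block H, row LOW: common strict lower bounds
-/

set_option autoImplicit false

open Finset

namespace Pool.Agent.PVH

open Pool.Agent.PV Pool.Agent.CZ

theorem LOW_A {H : Type} [AddCommGroup H] {P : H → Prop} {g : H} (hS : SOG P g) {ι : Type}
    (s : Finset ι) (y : ι → H) (hy : ∀ i ∈ s, P (y i)) : ∃ e, P e ∧ ∀ i ∈ s, P (y i - e) := by
  classical
  induction s using Finset.induction_on with
  | empty => exact ⟨g, hS.unit, fun i hi => absurd hi (Finset.notMem_empty i)⟩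
  | insert a s ha ih =>
    obtain ⟨e, he, h1⟩ := ih (fun i hi => hy i (Finset.mem_insert_of_mem hi))
    have h0 := hy a (Finset.mem_insert_self a s)
    obtain ⟨c, h2, -, h3, h4⟩ := hS.intp 0 0 (y a) e (by rwa [sub_zero]) (by rwa [sub_zero])
      (by rwa [sub_zero]) (by rwa [sub_zero])
    rw [sub_zero] at h2
    refine ⟨c, h2, fun i hi => ?_⟩
    rcases Finset.mem_insert.1 hi with rfl | hi
    · exact h3
    · have h5 := hS.add _ _ (h1 i hi) h4
      rwa [sub_add_sub_cancel] at h5

theorem LOW : LOW_stmt := by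
  intro H _ P g hS ι s y n hy
  obtain ⟨e, he, h1⟩ := LOW_A hS s y hy
  rcases Nat.eq_zero_or_pos n with h0 | h0
  · subst h0
    exact ⟨e, he, fun i hi => by
      rw [zero_nsmul, sub_zero]
      exact hy i hi⟩
  · obtain ⟨u, h2, h3⟩ := hS.div n e e h0 he
    rw [sub_sub_cancel] at h3
    refine ⟨u, hS.unperf n u h0 h3, fun i hi => ?_⟩
    have h5 := hS.add _ _ (h1 i hi) h2
    rwa [sub_add_sub_cancel] at h5

end Pool.Agent.PVH
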