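import Pool.Agent.helper72.PV.SpecH

/-!
# Project pv, block H, row MIX: a refinement with all multiplicities at least 3
-/

set_option autoImplicit false

open Finset

namespace Pool.Agent.PVH

open Pool.Agent.PV Pool.Agent.CZ

theorem MIX_one {H : Type} [AddCommGroup H] {P : H → Prop} {g : H} (hS : SOG P g) (e₀ w : H) (N : ℕ)
    (hN : 1 ≤ N) (he₀ : P e₀) (hw : P w) (h : P (N • e₀ - w)) :
    ∃ u, P u ∧ P (w - N • u) ∧ P (e₀ - u) ∧ P (e₀ - (w - N • u)) := by
  obtain ⟨e, h1, -, h2, h3⟩ := hS.intp 0 0 e₀ w (by rwa [sub_zero]) (by rwa [sub_zero])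
    (by rwa [sub_zero]) (by rwa [sub_zero])
  rw [sub_zero] at h1
  obtain ⟨u, h4, h5⟩ := hS.div N w e hN h1
  refine ⟨u, hS.unperf N u hN ?_, h4, hS.unperf N _ hN ?_, ?_⟩
  · have h6 := hS.add _ _ h3 h5
    have e1 : w - e + (e - (w - N • u)) = N • u := by abel
    rwa [e1] at h6
  · have h6 := hS.add _ _ h h4
    have e1 : N • e₀ - w + (w - N • u) = N • (e₀ - u) := by
      rw [nsmul_sub]
      abel
    rwa [e1] at h6
  · have h6 := hS.add _ _ h2 h5
    rwa [sub_add_sub_cancel] at h6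

theorem MIX (hLOW : LOW_stmt) : MIX_stmt := by
  intro H _ P g hS I _ _ w hw
  classical
  obtain ⟨s₀, hs₀, h1⟩ := hLOW H P g hS I Finset.univ w 3 (fun i _ => hw i)
  obtain ⟨e₀, he₀, h2⟩ := hLOW H P g hS Unit Finset.univ (fun _ => s₀) (2 * Fintype.card I)
    (fun _ _ => hs₀)
  have h2' : P (s₀ - (2 * Fintype.card I) • e₀) := h2 () (Finset.mem_univ _)
  have h1' : ∀ i, P (w i - 3 • s₀) := fun i => h1 i (Finset.mem_univ _)
  choose Ni hN1 hN2 using fun i => hS.arch e₀ (w i - 3 • s₀) he₀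
  obtain ⟨N, hNd⟩ : ∃ N : ℕ, N = ∑ i, Ni i := ⟨_, rfl⟩
  have hle : ∀ i, Ni i ≤ N := fun i => by
    rw [hNd]
    exact Finset.single_le_sum (fun j _ => Nat.zero_le (Ni j)) (Finset.mem_univ i)
  have hN : 1 ≤ N := (hN1 (Classical.arbitrary I)).trans (hle _)
  have hNP : ∀ i, P (N • e₀ - (w i - 3 • s₀)) := by
    intro i
    rcases Nat.eq_zero_or_pos (N - Ni i) with h0 | h0
    · have h3 : N = Ni i := le_antisymm (Nat.sub_eq_zero_iff_le.1 h0) (hle i)
      rw [h3]
      exact hN2 i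
    · have h3 := hS.add _ _ (hS.nsmul (N - Ni i) e₀ h0 he₀) (hN2 i)
      have e1 : (N - Ni i) • e₀ + (Ni i • e₀ - (w i - 3 • s₀)) = N • e₀ - (w i - 3 • s₀) := by
        have e2 : N • e₀ = (N - Ni i) • e₀ + Ni i • e₀ := by
          rw [← add_nsmul, Nat.sub_add_cancel (hle i)]
        rw [e2]
        abel
      rwa [e1] at h3
  choose u hu1 hu2 hu3 hu4 using fun i => MIX_one hS e₀ (w i - 3 • s₀) N hN he₀ (h1' i) (hNP i)
  obtain ⟨u', hu'⟩ : ∃ u' : I → H, ∀ i, u' i = (w i - 3 • s₀) - N • u i := ⟨_, fun i => rfl⟩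
  have hu2' : ∀ i, P (u' i) := fun i => by
    rw [hu']
    exact hu2 i
  have hu4' : ∀ i, P (e₀ - u' i) := fun i => by
    rw [hu']
    exact hu4 i
  obtain ⟨v₀, hv₀⟩ : ∃ v₀ : H, v₀ = s₀ - ∑ i, (u i + u' i) := ⟨_, rfl⟩
  have hPv₀ : P v₀ := by
    have h3 := hS.sum Finset.univ Finset.univ_nonempty (fun i => (e₀ - u i) + (e₀ - u' i))
      (fun i _ => hS.add _ _ (hu3 i) (hu4' i))
    have h4 := hS.add _ _ h2' h3
    have e1 : s₀ - (2 * Fintype.card I) • e₀ + ∑ i, ((e₀ - u i) + (e₀ - u' i)) = v₀ := by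
      have e2 : ∑ i, ((e₀ - u i) + (e₀ - u' i)) = (2 * Fintype.card I) • e₀ - ∑ i, (u i + u' i) := by
        have e3 : ∀ i, (e₀ - u i) + (e₀ - u' i) = (e₀ + e₀) - (u i + u' i) := fun i => by abel
        rw [Finset.sum_congr rfl fun i _ => e3 i, Finset.sum_sub_distrib, Finset.sum_const,
          Finset.card_univ, mul_comm 2, mul_nsmul', two_nsmul]
      rw [e2, hv₀]
      abel
    rwa [e1] at h4
  refine ⟨Option (I ⊕ I), inferInstance,
    fun o => o.elim v₀ (fun t => Sum.elim u u' t),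
    fun i o => o.elim 3 (fun t => Sum.elim (fun i' => 3 + (if i = i' then N else 0))
      (fun i' => 3 + (if i = i' then 1 else 0)) t), ⟨?_, ?_⟩, ?_⟩
  · rintro (_ | i | i)
    · exact hPv₀
    · exact hu1 i
    · exact hu2' i
  · intro i
    rw [Fintype.sum_option, Fintype.sum_sum_type]
    simp only [Option.elim_none, Option.elim_some, Sum.elim_inl, Sum.elim_inr, add_nsmul, ite_smul,
      zero_nsmul, one_nsmul, Finset.sum_add_distrib, Finset.sum_ite_eq, Finset.mem_univ, if_true]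
    rw [← Finset.smul_sum, ← Finset.smul_sum, hv₀, hu' i, nsmul_sub, Finset.sum_add_distrib,
      nsmul_add]
    abel
  · rintro i (_ | i' | i')
    · exact le_refl 3
    · exact Nat.le_add_right _ _
    · exact Nat.le_add_right _ _

end Pool.Agent.PVH
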