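import Pool.Agent.helper72.PV.SpecH

/-!
# Project pv, block H, row STN: the stage step, indexed by natural numbers
-/

set_option autoImplicit false

open Finset

namespace Pool.Agent.PVH

open Pool.Agent.PV Pool.Agent.CZ

theorem STN (hSTP : STP_stmt) : STN_stmt := by
  intro H _ P g hS n v hn hv x hx
  classical
  obtain ⟨J', _, v', M, hR, hM3, hk, c, hc⟩ := hSTP H P g hS (Fin n) (fun j => v j)
    (fun j => hv j j.2) x hx
  obtain ⟨n', hn'⟩ : ∃ n', n' = Fintype.card J' := ⟨_, rfl⟩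
  obtain ⟨e⟩ : Nonempty (J' ≃ Fin n') := by
    rw [hn']
    exact ⟨Fintype.equivFin J'⟩
  have hpos : 0 < n' := by
    by_contra h0
    have h1 : n' = 0 := by omega
    subst h1
    have : IsEmpty J' := ⟨fun j => (e j).elim0⟩
    rw [Fintype.sum_empty] at hc
    exact hS.zero (hc ▸ hx)
  -- functions on the natural numbers
  obtain ⟨w, hw⟩ : ∃ w : ℕ → H, ∀ j' : Fin n', w j' = v' (e.symm j') :=
    ⟨fun k => if h : k < n' then v' (e.symm ⟨k, h⟩) else 0, fun j' => dif_pos j'.2⟩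
  obtain ⟨M', hM'⟩ : ∃ M' : ℕ → ℕ → ℕ, ∀ (j' : Fin n') (j : Fin n), M' j' j = M j (e.symm j') :=
    ⟨fun k l => if h : k < n' then (if h' : l < n then M ⟨l, h'⟩ (e.symm ⟨k, h⟩) else 0) else 0,
      fun j' j => by
        show (if h : (j' : ℕ) < n' then (if h' : (j : ℕ) < n then M ⟨j, h'⟩ (e.symm ⟨j', h⟩) else 0)
          else 0) = M j (e.symm j')
        rw [dif_pos j'.2, dif_pos j.2]⟩
  obtain ⟨c', hc'⟩ : ∃ c' : ℕ → ℕ, ∀ j' : Fin n', c' j' = c (e.symm j') :=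
    ⟨fun k => if h : k < n' then c (e.symm ⟨k, h⟩) else 0, fun j' => dif_pos j'.2⟩
  refine ⟨n', w, M', hpos, ?_, ?_, ?_, ?_, c', ?_⟩
  · intro j' hj'
    have h := hw ⟨j', hj'⟩
    have h2 : w j' = v' (e.symm ⟨j', hj'⟩) := h
    rw [h2]
    exact hR.pos _
  · intro j hj
    rw [Finset.sum_range]
    have h1 := hR.eq ⟨j, hj⟩
    have h2 : v j = ∑ i, M ⟨j, hj⟩ i • v' i := h1
    rw [h2, ← Equiv.sum_comp e.symm]
    refine Finset.sum_congr rfl fun i _ => ?_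
    have h3 : M' i j = M ⟨j, hj⟩ (e.symm i) := hM' i ⟨j, hj⟩
    rw [hw i, h3]
  · intro j' j hj' hj
    have h3 : M' j' j = M ⟨j, hj⟩ (e.symm ⟨j', hj'⟩) := hM' ⟨j', hj'⟩ ⟨j, hj⟩
    rw [h3]
    exact hM3 _ _
  · intro z hz j' hj'
    rw [Finset.sum_range] at hz ⊢
    have h1 := hk (fun j => z j) hz (e.symm ⟨j', hj'⟩)
    rw [← h1]
    refine Finset.sum_congr rfl fun j _ => ?_
    have h3 : M' j' j = M j (e.symm ⟨j', hj'⟩) := hM' ⟨j', hj'⟩ j
    rw [h3, mul_comm]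
  · rw [Finset.sum_range, hc, ← Equiv.sum_comp e.symm]
    refine Finset.sum_congr rfl fun i _ => ?_
    rw [hw i, hc' i]

end Pool.Agent.PVH
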