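import Pool.Agent.helper72.PV.SpecH

/-!
# Project pv, block H, row STP: the stage step
-/

set_option autoImplicit false

open Finset

namespace Pool.Agent.PVH

open Pool.Agent.PV Pool.Agent.CZ

theorem STP (hSHD : SHD_stmt) (hMIX : MIX_stmt) : STP_stmt := by
  intro H _ P g hS J _ v hv x hx
  obtain ⟨I, _, w, m, hR, hk⟩ := hSHD H P g hS (Option J) (fun o => o.elim x v) (by
    rintro (_ | j)
    · exact hx
    · exact hv j)
  have hne : Nonempty I := by
    by_contra hc
    rw [not_nonempty_iff] at hc
    have h := hR.eq none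
    rw [Fintype.sum_empty] at h
    exact hS.zero (h ▸ hx)
  obtain ⟨J', _, v', K, hR', hK⟩ := hMIX H P g hS I w hR.pos
  refine ⟨J', inferInstance, v', fun j j' => ∑ i, m (some j) i * K i j',
    ⟨hR'.pos, fun j => (hR.comp hR').eq (some j)⟩, ?_, ?_,
    ⟨fun j' => ∑ i, m none i * K i j', (hR.comp hR').eq none⟩⟩
  · intro j j'
    have h : ∃ i, m (some j) i ≠ 0 := by
      by_contra hc
      push Not at hc
      have h := hR.eq (some j)
      rw [Finset.sum_eq_zero fun i _ => by rw [hc i, zero_nsmul]] at h
      have h0 : v j = 0 := h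
      exact hS.zero (h0 ▸ hv j)
    obtain ⟨i, hi⟩ := h
    calc 3 ≤ K i j' := hK i j'
      _ ≤ m (some j) i * K i j' := Nat.le_mul_of_pos_left _ (Nat.pos_of_ne_zero hi)
      _ ≤ ∑ i, m (some j) i * K i j' :=
          Finset.single_le_sum (f := fun i => m (some j) i * K i j') (fun _ _ => Nat.zero_le _)
            (Finset.mem_univ i)
  · intro z hz j'
    have h := hk (fun o => o.elim 0 z) (by
      rw [Fintype.sum_option]
      simp only [Option.elim_none, Option.elim_some, zero_smul, zero_add]
      exact hz)
    have h2 := kill_comp (fun o : Option J => o.elim 0 z) m K j'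
    rw [Finset.sum_eq_zero (s := (Finset.univ : Finset I)) fun i _ => by rw [h i, zero_mul],
      Fintype.sum_option] at h2
    simp only [Option.elim_none, Option.elim_some, zero_mul, zero_add] at h2
    exact h2

end Pool.Agent.PVH
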